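import Pool.Agent.H38R2.CG2.Stubs

/-!
# Project CG2, piece JX: expansion of the twisted kernel in Jacobi symbols (helper212)
-/

set_option autoImplicit false

namespace Pool.Agent.Run7.h212.CG

open Finset Filter Pool.Agent.H38R2.CG Pool.Agent.H38R2.CG2
open scoped Classical

theorem jac_prod (m : ℤ) (s : Finset ℕ) (hs : ∀ p ∈ s, p.Prime) :
    ((jacobiSym m (∏ p ∈ s, p) : ℤ) : ℝ) = ∏ p ∈ s, ((jacobiSym m p : ℤ) : ℝ) := by
  induction s using Finset.induction_on with
  | empty => simp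
  | insert a s ha ih =>
    have ha0 : NeZero a := ⟨(hs a (mem_insert_self _ _)).ne_zero⟩
    have hs0 : NeZero (∏ p ∈ s, p) :=
      ⟨prod_ne_zero_iff.mpr fun p hp => (hs p (mem_insert_of_mem hp)).ne_zero⟩
    rw [prod_insert ha, prod_insert ha, jacobiSym.mul_right, Int.cast_mul,
      ih fun p hp => hs p (mem_insert_of_mem hp)]

theorem T2_JX : P2_JX := by
  intro z X P δ C0 ρ c m v hρ hcP hP hv hvX
  unfold JJ
  rw [mul_assoc]
  congr 1
  set Av := v.primeFactors.filter (fun p => ¬ p ∣ Qz z ∧ p ∉ c) with hAv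
  set χ : ℕ → ℝ := fun p => (jacobiSym (m : ℤ) p : ℝ) with hχ
  set S := (Finset.Icc 1 X).filter
      (fun f => Squarefree f ∧ f.Coprime (Qz z) ∧ ∀ p ∈ c, ¬ p ∣ f) with hS
  -- left side
  have hL : (∏ p ∈ Av, (1 + χ p)) * ∑ d ∈ Finset.Icc 1 X, ρ d / d *
      ∏ p ∈ d.primeFactors.filter (fun p => ¬ p ∣ v), (1 + χ p) =
      ∑ d ∈ Finset.Icc 1 X, ρ d / d *
        ((∏ p ∈ Av, (1 + χ p)) * ∏ p ∈ d.primeFactors.filter (fun p => ¬ p ∣ v), (1 + χ p)) := by
    rw [mul_sum]
    exact sum_congr rfl fun d _ => by ring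
  -- right side
  have hR : ∑ f ∈ S, χ f * kap X ρ f v = ∑ d ∈ Finset.Icc 1 X, ρ d / d *
      ∑ f ∈ S.filter (fun f => f / Nat.gcd f v ∣ d), χ f := by
    unfold kap
    simp only [mul_sum, sum_filter]
    rw [sum_comm]
    refine sum_congr rfl fun d _ => sum_congr rfl fun f _ => ?_
    split_ifs <;> ring
  change (∏ p ∈ Av, (1 + χ p)) * ∑ d ∈ Finset.Icc 1 X, ρ d / d *
      ∏ p ∈ d.primeFactors.filter (fun p => ¬ p ∣ v), (1 + χ p) = ∑ f ∈ S, χ f * kap X ρ f v
  rw [hL, hR]
  refine sum_congr rfl fun d hd => ?_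
  by_cases hρd : ρ d = 0
  · rw [hρd]; simp
  congr 1
  obtain ⟨hd1, hdX, hdsq, hdQ, hdP⟩ := hρ.supp d hρd
  set Bd := d.primeFactors.filter (fun p => ¬ p ∣ v) with hBd
  have hdisj : Disjoint Av Bd := by
    rw [Finset.disjoint_left]
    intro p hp hp'
    rw [hAv, mem_filter] at hp
    rw [hBd, mem_filter] at hp'
    exact hp'.2 (Nat.dvd_of_mem_primeFactors hp.1)
  rw [← prod_union hdisj, prod_one_add]
  have hprime : ∀ T ∈ (Av ∪ Bd).powerset, ∀ p ∈ T, p.Prime := by
    intro T hT p hp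
    rw [mem_powerset] at hT
    rcases mem_union.mp (hT hp) with h | h
    · rw [hAv, mem_filter] at h
      exact Nat.prime_of_mem_primeFactors h.1
    · rw [hBd, mem_filter] at h
      exact Nat.prime_of_mem_primeFactors h.1
  refine Finset.sum_bij' (fun T _ => ∏ p ∈ T, p) (fun f _ => f.primeFactors) ?_ ?_ ?_ ?_ ?_
  · -- maps to
    intro T hT
    have hpr := hprime T hT
    rw [mem_powerset] at hT
    have hdvd : (∏ p ∈ T, p) ∣ v * d := by
      refine Finset.prod_primes_dvd _ (fun p hp => (hpr p hp).prime) fun p hp => ?_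
      rcases mem_union.mp (hT hp) with h | h
      · rw [hAv, mem_filter] at h
        exact Dvd.dvd.mul_right (Nat.dvd_of_mem_primeFactors h.1) _
      · rw [hBd, mem_filter] at h
        exact Dvd.dvd.mul_left (Nat.dvd_of_mem_primeFactors h.1) _
    have hpos : 0 < ∏ p ∈ T, p := prod_pos fun p hp => (hpr p hp).pos
    have hpf : (∏ p ∈ T, p).primeFactors = T := Nat.primeFactors_prod hpr
    have hsqf : Squarefree (∏ p ∈ T, p) := by
      refine Finset.squarefree_prod_of_pairwise_isCoprime (fun p hp q hq hpq => ?_)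
        (fun p hp => (hpr p hp).prime.squarefree)
      exact Nat.coprime_iff_isRelPrime.mp ((Nat.coprime_primes (hpr p hp) (hpr q hq)).mpr hpq)
    rw [mem_filter, hS, mem_filter, mem_Icc]
    refine ⟨⟨⟨hpos, ?_⟩, hsqf, ?_, ?_⟩, ?_⟩
    · have h1 : (∏ p ∈ T, p) ≤ v * d := Nat.le_of_dvd (Nat.mul_pos hv hd1) hdvd
      have h2 : ((v * d : ℕ) : ℝ) ≤ X := by
        push_cast
        exact (mul_le_mul_of_nonneg_left hdX (Nat.cast_nonneg _)).trans hvX
      exact h1.trans (by exact_mod_cast h2)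
    · rw [Nat.coprime_prod_left_iff]
      intro p hp
      rcases mem_union.mp (hT hp) with h | h
      · rw [hAv, mem_filter] at h
        exact (Nat.Prime.coprime_iff_not_dvd (hpr p hp)).mpr h.2.1
      · rw [hBd, mem_filter] at h
        exact Nat.Coprime.coprime_dvd_left (Nat.dvd_of_mem_primeFactors h.1) hdQ
    · intro q hq hqd
      have hqp := (hP q (hcP hq)).1
      have hqT : q ∈ T := by
        rw [← hpf]
        exact Nat.mem_primeFactors.mpr ⟨hqp, hqd, hpos.ne'⟩
      rcases mem_union.mp (hT hqT) with h | h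
      · rw [hAv, mem_filter] at h
        exact h.2.2 hq
      · rw [hBd, mem_filter] at h
        exact hdP q (hcP hq) (Nat.dvd_of_mem_primeFactors h.1)
    · rw [Nat.div_dvd_iff_dvd_mul (Nat.gcd_dvd_left _ _) (Nat.gcd_pos_of_pos_left _ hpos)]
      refine Finset.prod_primes_dvd _ (fun p hp => (hpr p hp).prime) fun p hp => ?_
      rcases mem_union.mp (hT hp) with h | h
      · rw [hAv, mem_filter] at h
        exact Dvd.dvd.mul_right (Nat.dvd_gcd (dvd_prod_of_mem _ hp)
          (Nat.dvd_of_mem_primeFactors h.1)) _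
      · rw [hBd, mem_filter] at h
        exact Dvd.dvd.mul_left (Nat.dvd_of_mem_primeFactors h.1) _
  · -- back
    intro f hf
    rw [mem_filter, hS, mem_filter, mem_Icc] at hf
    obtain ⟨⟨⟨hf1, hfX⟩, hfsq, hfQ, hfc⟩, hfd⟩ := hf
    rw [mem_powerset]
    intro p hp
    have hpp := Nat.prime_of_mem_primeFactors hp
    have hpf := Nat.dvd_of_mem_primeFactors hp
    rw [mem_union]
    by_cases hpv : p ∣ v
    · left
      rw [hAv, mem_filter]
      refine ⟨Nat.mem_primeFactors.mpr ⟨hpp, hpv, by omega⟩, ?_, ?_⟩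
      · intro h
        have := Nat.dvd_gcd hpf h
        rw [hfQ] at this
        exact hpp.one_lt.ne' (Nat.dvd_one.mp this)
      · intro h
        exact hfc p h hpf
    · right
      rw [hBd, mem_filter]
      refine ⟨Nat.mem_primeFactors.mpr ⟨hpp, ?_, by omega⟩, hpv⟩
      have h1 : f = Nat.gcd f v * (f / Nat.gcd f v) :=
        (Nat.mul_div_cancel' (Nat.gcd_dvd_left f v)).symm
      rw [h1] at hpf
      rcases (Nat.Prime.dvd_mul hpp).mp hpf with h | h
      · exact absurd (h.trans (Nat.gcd_dvd_right f v)) hpv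
      · exact h.trans hfd
  · intro T hT
    exact Nat.primeFactors_prod (hprime T hT)
  · intro f hf
    rw [mem_filter, hS, mem_filter] at hf
    exact Nat.prod_primeFactors_of_squarefree hf.1.2.1
  · intro T hT
    exact (jac_prod (m : ℤ) T (hprime T hT)).symm

end Pool.Agent.Run7.h212.CG
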