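import Pool.Agent.H38R2.CG2.Stubs

/-!
# Project CG2, piece KB: sums over v of the coefficients (helper212)
-/

set_option autoImplicit false

namespace Pool.Agent.Run7.h212.CG

open Finset Filter Pool.Agent.H38R2.CG Pool.Agent.H38R2.CG2
open scoped Classical

theorem sum_anti (F : ℝ → ℝ) (I : ℝ) (hF : AntitoneOn F (Set.Ici 0))
    (hI : ∀ V : ℝ, 0 ≤ V → ∫ x in (0 : ℝ)..V, F x ≤ I) (M V : ℕ) (hM : 1 ≤ M) :
    ∑ v ∈ (Finset.Icc 1 V).filter (fun v => M ∣ v), F v ≤ I / M := by
  have hM0 : (0 : ℝ) < M := by exact_mod_cast hM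
  have h1 : ∑ v ∈ (Finset.Icc 1 V).filter (fun v => M ∣ v), F v =
      ∑ i ∈ Finset.range (V / M), F (M * (0 + ((i + 1 : ℕ) : ℝ))) := by
    symm
    refine Finset.sum_bij' (fun i _ => M * (i + 1)) (fun v _ => v / M - 1) ?_ ?_ ?_ ?_ ?_
    · intro i hi
      rw [mem_range] at hi
      rw [mem_filter, mem_Icc]
      refine ⟨⟨Nat.mul_pos hM (Nat.succ_pos _), ?_⟩, Dvd.intro _ rfl⟩
      calc M * (i + 1) ≤ M * (V / M) := Nat.mul_le_mul_left _ hi
        _ ≤ V := Nat.mul_div_le _ _
    · intro v hv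
      rw [mem_filter, mem_Icc] at hv
      obtain ⟨⟨hv1, hvV⟩, k, rfl⟩ := hv
      have hk : 1 ≤ k := Nat.pos_of_ne_zero (by rintro rfl; simp at hv1)
      rw [Nat.mul_div_cancel_left _ hM, mem_range]
      have : k ≤ V / M := (Nat.le_div_iff_mul_le hM).mpr (by rw [mul_comm]; exact hvV)
      omega
    · intro i _
      rw [Nat.mul_div_cancel_left _ hM]
      simp
    · intro v hv
      rw [mem_filter, mem_Icc] at hv
      obtain ⟨⟨hv1, hvV⟩, k, rfl⟩ := hv
      have hk : 1 ≤ k := Nat.pos_of_ne_zero (by rintro rfl; simp at hv1)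
      rw [Nat.mul_div_cancel_left _ hM, Nat.sub_add_cancel hk]
    · intro i _
      congr 1
      push_cast
      ring
  rw [h1]
  have h2 : AntitoneOn (fun x : ℝ => F (M * x)) (Set.Icc 0 (0 + ((V / M : ℕ) : ℝ))) := by
    intro x hx y hy hxy
    exact hF (mul_nonneg hM0.le hx.1) (mul_nonneg hM0.le hy.1) (mul_le_mul_of_nonneg_left hxy hM0.le)
  have h3 := h2.sum_le_integral
  refine h3.trans ?_
  rw [intervalIntegral.integral_comp_mul_left _ hM0.ne', smul_eq_mul, mul_zero, zero_add,
    div_eq_inv_mul]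
  exact mul_le_mul_of_nonneg_left (hI _ (by positivity)) (by positivity)

theorem prodS_pos (T : Finset ℕ) (h : ∀ p ∈ T, p.Prime) : 0 < prodS T :=
  prod_pos fun p hp => (h p hp).pos

theorem T2_KB : P2_KB := by
  intro z X V f w P δ C0 ρ c F I hρ hC0 hw hf hfsq hwf hc hF hF0 hI
  have hI0 : 0 ≤ I := by simpa using hI 0 le_rfl
  have hG : 0 ≤ GG X ρ :=
    le_trans (inv_nonneg.mpr (pow_nonneg (Real.log_natCast_nonneg X) _)) hρ.low
  have hf0 : (0 : ℝ) < f := by exact_mod_cast hf
  have hw0 : (0 : ℝ) < w := by exact_mod_cast hw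
  have hC0' : (0 : ℝ) ≤ C0 := Nat.cast_nonneg _
  set pf := f.primeFactors with hpf
  have hpfp : ∀ p ∈ pf, p.Prime := fun p hp => Nat.prime_of_mem_primeFactors hp
  have hprodf : ∏ p ∈ pf, p = f := Nat.prod_primeFactors_of_squarefree hfsq
  have hsplit : ∀ T ⊆ pf, prodS T * prodS (pf \ T) = f := by
    intro T hT
    unfold prodS
    rw [mul_comm, prod_sdiff hT, hprodf]
  -- coefficient
  let co : Finset ℕ → Finset ℕ → ℝ := fun T b =>
    ((2 : ℝ) ^ b.card * prodS b) * ((C0 : ℝ) ^ (pf.card - T.card) * GG X ρ * prodS T / f)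
  have hco : ∀ T b, 0 ≤ co T b := fun T b => by
    simp only [co]; positivity
  -- bound for each v
  have hv : ∀ v ∈ (Finset.Icc 1 V).filter (fun v => w ∣ v), F v * (tau c v * |kap X ρ f v|) ≤
      ∑ T ∈ pf.powerset, ∑ b ∈ c.powerset,
        if (prodS T ∣ v ∧ prodS b ∣ v) then co T b * F v else 0 := by
    intro v hv
    rw [mem_filter, mem_Icc] at hv
    obtain ⟨⟨hv1, hvV⟩, hwv⟩ := hv
    set T := pf.filter (fun p => p ∣ v) with hT
    set b := c.filter (fun p => p ∣ v) with hb
    have hTpf : T ⊆ pf := filter_subset _ _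
    have hbc : b ⊆ c := filter_subset _ _
    have hTp : ∀ p ∈ T, p.Prime := fun p hp => hpfp p (hTpf hp)
    have hbp : ∀ p ∈ b, p.Prime := fun p hp => (hc p (hbc hp)).1
    have hTv : prodS T ∣ v := by
      refine Finset.prod_primes_dvd _ (fun p hp => (hTp p hp).prime) fun p hp => ?_
      rw [hT, mem_filter] at hp
      exact hp.2
    have hbv : prodS b ∣ v := by
      refine Finset.prod_primes_dvd _ (fun p hp => (hbp p hp).prime) fun p hp => ?_
      rw [hb, mem_filter] at hp
      exact hp.2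
    have hTpos := prodS_pos T hTp
    -- gcd
    have hgcd : Nat.gcd f v = prodS T := by
      apply Nat.dvd_antisymm
      · have hsq : Squarefree (Nat.gcd f v) := hfsq.squarefree_of_dvd (Nat.gcd_dvd_left _ _)
        rw [← Nat.prod_primeFactors_of_squarefree hsq]
        refine Finset.prod_primes_dvd _
          (fun p hp => (Nat.prime_of_mem_primeFactors hp).prime) fun p hp => ?_
        have hpg := Nat.dvd_of_mem_primeFactors hp
        have hpp := Nat.prime_of_mem_primeFactors hp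
        refine dvd_prod_of_mem _ ?_
        rw [hT, mem_filter]
        exact ⟨Nat.mem_primeFactors.mpr ⟨hpp, hpg.trans (Nat.gcd_dvd_left _ _), by omega⟩,
          hpg.trans (Nat.gcd_dvd_right _ _)⟩
      · refine Nat.dvd_gcd ?_ hTv
        rw [← hsplit T hTpf]
        exact Dvd.intro _ rfl
    have hdiv : f / Nat.gcd f v = prodS (pf \ T) := by
      rw [hgcd]
      conv_lhs => rw [← hsplit T hTpf]
      exact Nat.mul_div_cancel_left _ hTpos
    have hpf' : (prodS (pf \ T)).primeFactors = pf \ T :=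
      Nat.primeFactors_prod fun p hp => hpfp p (mem_sdiff.mp hp).1
    have hsq' : Squarefree (prodS (pf \ T)) := by
      refine hfsq.squarefree_of_dvd ?_
      conv_rhs => rw [← hsplit T hTpf]
      exact Dvd.intro_left _ rfl
    have hkap : |kap X ρ f v| ≤ (C0 : ℝ) ^ (pf.card - T.card) * GG X ρ * prodS T / f := by
      unfold kap
      rw [hdiv]
      refine (hρ.div _ hsq').trans (le_of_eq ?_)
      rw [hpf', card_sdiff_of_subset hTpf]
      have h1 : (f : ℝ) = (prodS T : ℝ) * prodS (pf \ T) := by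
        exact_mod_cast (hsplit T hTpf).symm
      have h2 : (0 : ℝ) < prodS T := by exact_mod_cast hTpos
      have h3 : (0 : ℝ) < prodS (pf \ T) := by
        exact_mod_cast prodS_pos _ fun p hp => hpfp p (mem_sdiff.mp hp).1
      rw [h1]
      field_simp
    have htau : tau c v = (2 : ℝ) ^ b.card * prodS b := by
      unfold tau prodS
      rw [← hb, prod_mul_distrib, prod_const]
      push_cast
      rfl
    have hmain : F v * (tau c v * |kap X ρ f v|) ≤ co T b * F v := by
      rw [htau, mul_comm (co T b)]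
      refine mul_le_mul_of_nonneg_left ?_ (hF0 v)
      simp only [co]
      exact mul_le_mul_of_nonneg_left hkap (by positivity)
    refine hmain.trans ?_
    have h1 : (if (prodS T ∣ v ∧ prodS b ∣ v) then co T b * F v else 0) = co T b * F v :=
      if_pos ⟨hTv, hbv⟩
    rw [← h1]
    have hnn : ∀ T b, 0 ≤ (if (prodS T ∣ v ∧ prodS b ∣ v) then co T b * F v else 0) := by
      intro T b
      split_ifs
      · exact mul_nonneg (hco T b) (hF0 v)
      · exact le_rfl
    refine le_trans ?_ (single_le_sum (f := fun T => ∑ b ∈ c.powerset,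
      if (prodS T ∣ v ∧ prodS b ∣ v) then co T b * F v else 0)
      (fun T _ => sum_nonneg fun b _ => hnn T b) (mem_powerset.mpr hTpf))
    exact single_le_sum (f := fun b => if (prodS T ∣ v ∧ prodS b ∣ v) then co T b * F v else 0)
      (fun b _ => hnn T b) (mem_powerset.mpr hbc)
  refine (sum_le_sum hv).trans ?_
  rw [sum_comm]
  have hswap : ∀ T ∈ pf.powerset, ∑ v ∈ (Finset.Icc 1 V).filter (fun v => w ∣ v),
      ∑ b ∈ c.powerset, (if (prodS T ∣ v ∧ prodS b ∣ v) then co T b * F v else 0) ≤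
      ∑ b ∈ c.powerset, (2 : ℝ) ^ b.card * 1 ^ (c.card - b.card) *
        ((1 : ℝ) ^ T.card * (C0 : ℝ) ^ (pf.card - T.card) * (GG X ρ / f * (I / w))) := by
    intro T hT
    rw [mem_powerset] at hT
    rw [sum_comm]
    refine sum_le_sum fun b hb => ?_
    rw [mem_powerset] at hb
    have hTp : ∀ p ∈ T, p.Prime := fun p hp => hpfp p (hT hp)
    have hbp : ∀ p ∈ b, p.Prime := fun p hp => (hc p (hb hp)).1
    have hTpos := prodS_pos T hTp
    have hbpos := prodS_pos b hbp
    have hTf : prodS T ∣ f := by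
      rw [← hsplit T hT]
      exact Dvd.intro _ rfl
    have hcop1 : Nat.Coprime w (prodS T) := Nat.Coprime.coprime_dvd_right hTf hwf
    have hcop2 : Nat.Coprime (w * prodS T) (prodS b) := by
      unfold prodS
      rw [Nat.coprime_prod_right_iff]
      intro p hp
      rw [Nat.coprime_comm, Nat.Prime.coprime_iff_not_dvd (hbp p hp)]
      intro h
      rcases (Nat.Prime.dvd_mul (hbp p hp)).mp h with h | h
      · exact (hc p (hb hp)).2.2 h
      · exact (hc p (hb hp)).2.1 (h.trans hTf)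
    have hsub : ∑ v ∈ (Finset.Icc 1 V).filter (fun v => w ∣ v),
        (if (prodS T ∣ v ∧ prodS b ∣ v) then co T b * F v else 0) ≤
        co T b * ∑ v ∈ (Finset.Icc 1 V).filter (fun v => w * prodS T * prodS b ∣ v), F v := by
      rw [← sum_filter, filter_filter, ← mul_sum]
      refine mul_le_mul_of_nonneg_left ?_ (hco T b)
      refine sum_le_sum_of_subset_of_nonneg ?_ fun v _ _ => hF0 v
      intro v hv
      rw [mem_filter] at hv ⊢
      refine ⟨hv.1, ?_⟩
      exact Nat.Coprime.mul_dvd_of_dvd_of_dvd hcop2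
        (Nat.Coprime.mul_dvd_of_dvd_of_dvd hcop1 hv.2.1 hv.2.2.1) hv.2.2.2
    refine hsub.trans ?_
    have hMpos : 1 ≤ w * prodS T * prodS b :=
      Nat.mul_pos (Nat.mul_pos hw hTpos) hbpos
    refine (mul_le_mul_of_nonneg_left (sum_anti F I hF hI _ V hMpos) (hco T b)).trans
      (le_of_eq ?_)
    have h2 : (0 : ℝ) < prodS T := by exact_mod_cast hTpos
    have h3 : (0 : ℝ) < prodS b := by exact_mod_cast hbpos
    simp only [co, one_pow, mul_one, one_mul]
    push_cast
    field_simp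
  refine (sum_le_sum hswap).trans ?_
  have hfin : ∑ T ∈ pf.powerset, ∑ b ∈ c.powerset, (2 : ℝ) ^ b.card * 1 ^ (c.card - b.card) *
        ((1 : ℝ) ^ T.card * (C0 : ℝ) ^ (pf.card - T.card) * (GG X ρ / f * (I / w))) =
      3 ^ c.card * (1 + C0 : ℝ) ^ pf.card * (GG X ρ / f * (I / w)) := by
    have h1 := Finset.sum_pow_mul_eq_add_pow (2 : ℝ) 1 c
    have h2 := Finset.sum_pow_mul_eq_add_pow (1 : ℝ) C0 pf
    calc _ = ∑ T ∈ pf.powerset, (∑ b ∈ c.powerset, (2 : ℝ) ^ b.card * 1 ^ (c.card - b.card)) *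
        ((1 : ℝ) ^ T.card * (C0 : ℝ) ^ (pf.card - T.card) * (GG X ρ / f * (I / w))) :=
          sum_congr rfl fun T _ => by rw [sum_mul]
      _ = ∑ T ∈ pf.powerset, (3 ^ c.card * (GG X ρ / f * (I / w))) *
          ((1 : ℝ) ^ T.card * (C0 : ℝ) ^ (pf.card - T.card)) := by
          refine sum_congr rfl fun T _ => ?_
          rw [h1]; norm_num; ring
      _ = _ := by rw [← mul_sum, h2]; ring
  rw [hfin]
  have h4 : (1 + C0 : ℝ) ^ pf.card ≤ (2 * C0 : ℝ) ^ pf.card := by
    refine pow_le_pow_left₀ (by positivity) ?_ _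
    have : (1 : ℝ) ≤ C0 := by exact_mod_cast hC0
    linarith
  have h5 : 0 ≤ GG X ρ / f * (I / w) := by positivity
  calc 3 ^ c.card * (1 + C0 : ℝ) ^ pf.card * (GG X ρ / f * (I / w))
      ≤ 3 ^ c.card * (2 * C0 : ℝ) ^ pf.card * (GG X ρ / f * (I / w)) :=
        mul_le_mul_of_nonneg_right (mul_le_mul_of_nonneg_left h4 (by positivity)) h5
    _ = _ := by ring

end Pool.Agent.Run7.h212.CG
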