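import Pool.Agent.Run7.h212.CG.TMbc

/-!
# Project CG2, piece TMa (helper212)
-/

set_option autoImplicit false

namespace Pool.Agent.Run7.h212.CG

open Finset Filter MeasureTheory Pool.Agent.H38R2.CG Pool.Agent.H38R2.CG2
open scoped Classical

theorem chi_le_one (D : ℤ) (n : ℕ) : (chi D n : ℝ) ≤ 1 := by
  have h1 : |chi2 D| ≤ 1 := by
    unfold chi2
    split_ifs <;> norm_num
  have h2 : |jacobiSym D (n / 2 ^ padicValNat 2 n)| ≤ 1 := by
    rcases jacobiSym.trichotomy D (n / 2 ^ padicValNat 2 n) with h | h | h <;> rw [h] <;> norm_num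
  have h3 : |chi D n| ≤ 1 := by
    unfold chi
    rw [abs_mul, abs_pow]
    exact mul_le_one₀ (pow_le_one₀ (abs_nonneg _) h1) (abs_nonneg _) h2
  have h4 : chi D n ≤ 1 := (le_abs_self _).trans h3
  exact_mod_cast h4

theorem PiR_pos (z r : ℕ) : 0 < PiR z r := by
  unfold PiR
  refine prod_pos fun l hl => ?_
  rw [mem_filter, mem_Icc] at hl
  have hl2 : (2 : ℝ) ≤ l := by exact_mod_cast hl.1.1
  have h1 := chi_le_one (r : ℤ) l
  have h2 : (chi r l : ℝ) / l ≤ 1 / 2 := by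
    rw [div_le_div_iff₀ (by linarith) (by norm_num)]
    linarith
  linarith

theorem P0_pos (z : ℕ) :
    (0 : ℝ) < ((∏ q ∈ (Finset.Icc 2 z).filter Nat.Prime, q : ℕ) : ℝ) := by
  have : 0 < ∏ q ∈ (Finset.Icc 2 z).filter Nat.Prime, q :=
    prod_pos fun q hq => (mem_filter.mp hq).2.pos
  exact_mod_cast this

theorem alg1 (q μ E G Pi P0 ε2 H ε1 N lf L Dd : ℝ) (hL : L ≠ 0) :
    1 / q * ((1 + μ) * E * (G * (2 * Pi * (P0 * (ε2 * H) + E * (H / 8)) + ε1 * (E * (H / 8))) * N +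
      lf * (G * (ε1 * (E * (H / 8)) * (N / L))) * (Dd * L))) =
    G * H * N / q * ((1 + μ) * E * (2 * Pi * (P0 * ε2 + E / 8) + ε1 * (E / 8) * (1 + lf * Dd))) := by
  have h : lf * (G * (ε1 * (E * (H / 8)) * (N / L))) * (Dd * L) =
      lf * (G * (ε1 * (E * (H / 8)) * N)) * Dd := by
    field_simp
  rw [h]
  ring

theorem numer (μ ε E Pi P0 ε2 ε1 lf Dd : ℝ) (hμ0 : 0 < μ) (hμ1 : μ ≤ 1) (hμ2 : μ ≤ ε / 10)
    (hE0 : 0 < E) (hEE : E * E ≤ 1 + 2 * μ) (hPi : 0 < Pi) (hP0 : 0 < P0) (hlf : 0 < lf)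
    (hD0 : 0 ≤ Dd) (hD1 : Dd ≤ 4) (hε : 0 < ε) (hε2 : ε2 = ε / (128 * P0))
    (hε1 : ε1 = ε * Pi / (16 * (1 + 4 * lf))) :
    (1 + μ) * E * (2 * Pi * (P0 * ε2 + E / 8) + ε1 * (E / 8) * (1 + lf * Dd)) ≤
      (1 + ε) * Pi / 4 := by
  have hε1' : 0 < ε1 := by rw [hε1]; positivity
  have t1 : (1 + μ) * (E * E) ≤ 1 + ε / 2 := by
    have h5 : (1 + μ) * (E * E) ≤ (1 + μ) * (1 + 2 * μ) :=
      mul_le_mul_of_nonneg_left hEE (by linarith)
    have h6 : μ * μ ≤ μ := by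
      calc μ * μ ≤ μ * 1 := mul_le_mul_of_nonneg_left hμ1 hμ0.le
        _ = μ := mul_one _
    have h7 : (1 + μ) * (1 + 2 * μ) = 1 + 3 * μ + 2 * (μ * μ) := by ring
    linarith
  have hE2 : E ≤ 2 := by
    by_contra h
    push Not at h
    have h5 : 2 * 2 < E * E := mul_lt_mul'' h h (by norm_num) (by norm_num)
    linarith
  have t2 : (1 + μ) * E ≤ 4 := by
    calc (1 + μ) * E ≤ (1 + 1) * 2 := mul_le_mul (by linarith) hE2 hE0.le (by norm_num)
      _ = 4 := by norm_num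
  have s2 : 2 * Pi * (P0 * ε2) = Pi * ε / 64 := by
    rw [hε2]; field_simp; norm_num
  have s3 : ε1 * (1 + lf * Dd) ≤ ε * Pi / 16 := by
    have h5 : ε1 * (1 + lf * Dd) ≤ ε1 * (1 + 4 * lf) := by
      refine mul_le_mul_of_nonneg_left ?_ hε1'.le
      have : lf * Dd ≤ lf * 4 := mul_le_mul_of_nonneg_left hD1 hlf.le
      linarith
    refine h5.trans (le_of_eq ?_)
    rw [hε1]; field_simp
  have s4 : (1 + μ) * E * (E / 8) ≤ 1 := by
    calc (1 + μ) * E * (E / 8) ≤ 4 * (2 / 8) :=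
          mul_le_mul t2 (by linarith) (by positivity) (by norm_num)
      _ = 1 := by norm_num
  have s5 : (1 + μ) * E * (Pi * ε / 64) ≤ 4 * (Pi * ε / 64) :=
    mul_le_mul_of_nonneg_right t2 (by positivity)
  have s6 : (1 + μ) * E * (E / 8) * (ε1 * (1 + lf * Dd)) ≤ 1 * (ε * Pi / 16) :=
    mul_le_mul s4 s3 (by positivity) (by norm_num)
  have s7 : (1 + μ) * (E * E) * (Pi / 4) ≤ (1 + ε / 2) * (Pi / 4) :=
    mul_le_mul_of_nonneg_right t1 (by positivity)
  calc (1 + μ) * E * (2 * Pi * (P0 * ε2 + E / 8) + ε1 * (E / 8) * (1 + lf * Dd))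
      = (1 + μ) * E * (2 * Pi * (P0 * ε2)) + (1 + μ) * (E * E) * (Pi / 4) +
        (1 + μ) * E * (E / 8) * (ε1 * (1 + lf * Dd)) := by ring
    _ = (1 + μ) * E * (Pi * ε / 64) + (1 + μ) * (E * E) * (Pi / 4) +
        (1 + μ) * E * (E / 8) * (ε1 * (1 + lf * Dd)) := by rw [s2]
    _ ≤ _ := by linarith

theorem alg2 (η s q Pi ε G N x : ℝ) (hx : x = (1 + ε) * Pi / 4) :
    G * (η * s) * N / q * x = (1 + ε) * (Pi / (4 * q)) * G * η * s * N := by
  rw [hx, div_mul_eq_div_div]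
  ring

theorem T2_TMa (hTA : P2_TA) (hOM : P2_OM) (hOMC : P2_OMC) (hTB2 : P_TB2) (hFJ : P2_FJ)
    (hSZ : P2_SZ) (hNB : P2_NB) (hJP : P2_JP) : P2_TMa := by
  intro a ha z r hz2 hr η hη hη1 C0 hC0 ε hε
  set μ := min 1 (ε / 10) with hμ
  have hμ0 : 0 < μ := lt_min one_pos (by positivity)
  have hμ1 : μ ≤ 1 := min_le_left _ _
  have hμ2 : μ ≤ ε / 10 := min_le_right _ _
  obtain ⟨l, hl, hOM'⟩ := hOM μ μ hμ0 hμ0 hμ1
  have hfI := fejI_pos hFJ
  have hPi := PiR_pos z r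
  set P0 : ℝ := ((∏ q ∈ (Finset.Icc 2 z).filter Nat.Prime, q : ℕ) : ℝ) with hP0
  have hP0pos : 0 < P0 := P0_pos z
  set lf := l / fejI with hlf
  have hlf0 : 0 < lf := div_pos hl hfI
  set ε1 := ε * PiR z r / (16 * (1 + 4 * lf)) with hε1
  have hε1' : 0 < ε1 := by positivity
  set ε2 := ε / (128 * P0) with hε2
  have hε2' : 0 < ε2 := by positivity
  obtain ⟨X1, h1⟩ := hTA a ha z r hz2 hr C0 hC0 l ε1 hl hε1'
  obtain ⟨X2, h2⟩ := hSZ a ha
  obtain ⟨X3, h3⟩ := big hNB a ha 2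
  have hcc0 := cc_pos ha
  have hcc1 := cc_lt ha
  have h4 : ∀ᶠ X : ℕ in atTop, (X : ℝ) ^ (-(1 / 2 - 8 * cc a)) ≤ 2 * ε2 := by
    have h5 := (tendsto_rpow_neg_atTop (y := 1 / 2 - 8 * cc a) (by linarith)).comp
      (tendsto_natCast_atTop_atTop (R := ℝ))
    exact (h5.eventually (ge_mem_nhds (by positivity : (0 : ℝ) < 2 * ε2)))
  obtain ⟨X4, h4⟩ := eventually_atTop.mp h4
  refine ⟨max (max X1 X2) (max X3 X4), fun X hX ρ hρ => ?_⟩
  have hX1 : X1 ≤ X := le_trans (le_trans (le_max_left _ _) (le_max_left _ _)) hX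
  have hX2 : X2 ≤ X := le_trans (le_trans (le_max_right _ _) (le_max_left _ _)) hX
  have hX3 : X3 ≤ X := le_trans (le_trans (le_max_left _ _) (le_max_right _ _)) hX
  have hX4 : X4 ≤ X := le_trans (le_trans (le_max_right _ _) (le_max_right _ _)) hX
  obtain ⟨b1, b2, b3, b4, b5⟩ := h3 X hX3
  have hG := GG_nonneg hρ
  have hXone : 1 ≤ X := by omega
  have hX0 : (0 : ℝ) < X := by exact_mod_cast (by omega : 0 < X)
  have hrpow : (0 : ℝ) ≤ (X : ℝ) ^ (1 - cc a) := (Real.rpow_pos_of_pos hX0 _).le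
  have hQ := Qz_pos z
  set L := Real.log X with hL
  set k := kA a X with hk
  set E := Real.exp (μ / 2) with hE
  have hE0 : 0 < E := Real.exp_pos _
  set H := η * √(X : ℝ) with hH
  have hH0 : 0 ≤ H := by positivity
  set I := E * (H / 8) with hI
  have hI0 : 0 ≤ I := by positivity
  set N := (NA a X) ^ 2 with hN
  have hN0 : 0 ≤ N := by positivity
  set T0 := 2 * th a * L - μ with hT0
  set T1 := (2 * th a + 2 * cc a) * L + μ with hT1
  have hTT : T0 ≤ T1 := by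
    rw [hT0, hT1]
    nlinarith
  have hTd : T1 - T0 ≤ 4 * L := by
    rw [hT0, hT1]
    nlinarith
  have he : ∀ m : ℕ, prodS (∅ : Finset ℕ) ^ 2 * m = m := by
    intro m
    simp [prodS]
  have hEhalf : Real.exp (-(1 / 2)) ≥ 1 / 2 := by
    have := Real.add_one_le_exp (-(1 / 2 : ℝ))
    linarith
  -- value at 0
  have hF0 : ∀ t : ℝ, T0 ≤ t → om X η (0 * Real.exp (-(μ / 2))) (Real.exp t) ≤ ε2 * H := by
    intro t ht
    have h5 := (hTB2 X η hXone hη hη1 (Real.exp t) (Real.exp_pos t)).2.2.1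
      (0 * Real.exp (-(μ / 2)))
    refine h5.trans ?_
    have h6 : √(Real.exp t) = Real.exp (t / 2) := by
      rw [Real.sqrt_eq_iff_mul_self_eq (Real.exp_pos _).le (Real.exp_pos _).le, ← Real.exp_add]
      ring_nf
    have h7 : (X : ℝ) ^ (th a) * (1 / 2) ≤ Real.exp (t / 2) := by
      have h8 : (X : ℝ) ^ (th a) = Real.exp (th a * L) := by
        rw [Real.rpow_def_of_pos hX0, mul_comm]
      rw [h8]
      calc Real.exp (th a * L) * (1 / 2) ≤ Real.exp (th a * L) * Real.exp (-(1 / 2)) :=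
            mul_le_mul_of_nonneg_left hEhalf (Real.exp_pos _).le
        _ = Real.exp (th a * L + -(1 / 2)) := by rw [Real.exp_add]
        _ ≤ Real.exp (t / 2) := by
            apply Real.exp_le_exp.mpr
            rw [hT0] at ht
            linarith
    have h9 : 0 < (X : ℝ) ^ (th a) := Real.rpow_pos_of_pos hX0 _
    rw [h6]
    have h10 : η * X / (4 * Real.exp (t / 2)) ≤ η * X / (4 * ((X : ℝ) ^ (th a) * (1 / 2))) := by
      apply div_le_div_of_nonneg_left (by positivity) (by positivity)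
      linarith
    refine h10.trans ?_
    have h11 : (X : ℝ) = (X : ℝ) ^ (th a) * (√(X : ℝ) * (X : ℝ) ^ (-(1 / 2 - 8 * cc a))) := by
      rw [Real.sqrt_eq_rpow, ← Real.rpow_add hX0, ← Real.rpow_add hX0]
      unfold th
      have : (1 - 8 * cc a + (1 / 2 + -(1 / 2 - 8 * cc a))) = 1 := by ring
      rw [this, Real.rpow_one]
    have h12 := h4 X hX4
    calc η * X / (4 * ((X : ℝ) ^ (th a) * (1 / 2)))
        = η * ((X : ℝ) ^ (th a) * (√(X : ℝ) * (X : ℝ) ^ (-(1 / 2 - 8 * cc a)))) /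
          (4 * ((X : ℝ) ^ (th a) * (1 / 2))) := by rw [← h11]
      _ = η * √(X : ℝ) / 2 * (X : ℝ) ^ (-(1 / 2 - 8 * cc a)) := by field_simp; ring
      _ ≤ η * √(X : ℝ) / 2 * (2 * ε2) := mul_le_mul_of_nonneg_left h12 (by positivity)
      _ = ε2 * H := by rw [hH]; ring
  have hSF : ∀ t, 0 ≤ SF a X k ∅ l t := fun t =>
    sum_nonneg fun s _ => sum_nonneg fun t' _ => hFJ.2.1 _
  have hSUB : (∅ : Finset ℕ) ⊆ PA a X := empty_subset _
  have key := transfer hFJ hOMC (κ := μ) (η' := μ) hμ0 hl hOM' a X k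
    ⌊(X : ℝ) ^ (1 - cc a)⌋₊ ∅ η T0 T1
    (GG X ρ * (2 * PiR z r * (P0 * (ε2 * H) + I) + ε1 * I))
    (GG X ρ * (ε1 * I * (N / L))) hXone hη hη1 hTT
    (fun v s t => (rhoQ z r (prodS s * prodS t) v : ℝ) * JJ z X ρ ∅ (prodS s * prodS t) v)
    (fun v s t => mul_nonneg (Nat.cast_nonneg _)
      (hJP z X (PA a X) (cc a) C0 ρ ∅ (prodS s * prodS t) v hρ)) (by positivity)
    (fun s hs t ht => by
      have hs' : s ∈ (PA a X).powersetCard (kA a X - (∅ : Finset ℕ).card) := by simpa using hs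
      have ht' : t ∈ (PA a X).powersetCard (kA a X - (∅ : Finset ℕ).card) := by simpa using ht
      obtain ⟨h3, h4, h5⟩ := log_n hXone (h2 X hX2) hSUB (by simp) hs' ht'
      refine ⟨h3, ?_, ?_⟩
      · rw [hT0]; linarith
      · rw [hT1]; linarith)
    (fun t ht _ => by
      obtain ⟨f1, f2, f3⟩ := F_facts hTB2 X η μ t hXone hη hη1
      have h3 := h1 X hX1 ρ hρ ⌊(X : ℝ) ^ (1 - cc a)⌋₊
        (fun v : ℝ => om X η (v * Real.exp (-(μ / 2))) (Real.exp t)) I t f1 f2 f3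
        (Nat.floor_le hrpow)
      simp only [he]
      refine h3.trans ?_
      have h5 := hF0 t ht
      have h6 : 2 * PiR z r * (P0 * om X η (0 * Real.exp (-(μ / 2))) (Real.exp t) + I) ≤
          2 * PiR z r * (P0 * (ε2 * H) + I) := by
        refine mul_le_mul_of_nonneg_left ?_ (by positivity)
        have := mul_le_mul_of_nonneg_left h5 hP0pos.le
        linarith
      have h7 := mul_le_mul_of_nonneg_right h6 (hSF t)
      calc GG X ρ * (2 * PiR z r * (P0 * om X η (0 * Real.exp (-(μ / 2))) (Real.exp t) + I) *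
            SF a X (kA a X) ∅ l t + ε1 * I * (SF a X (kA a X) ∅ l t + (NA a X) ^ 2 / Real.log X))
          ≤ GG X ρ * (2 * PiR z r * (P0 * (ε2 * H) + I) *
            SF a X (kA a X) ∅ l t +
            ε1 * I * (SF a X (kA a X) ∅ l t + (NA a X) ^ 2 / Real.log X)) := by
            refine mul_le_mul_of_nonneg_left ?_ hG
            linarith
        _ = _ := by rw [hN]; ring)
  have hMT : ∑ s ∈ SA a X, ∑ t ∈ SA a X, MT a z r X η ρ ∅ s t =
      1 / Qz z * ∑ s ∈ (PA a X).powersetCard k, ∑ t' ∈ (PA a X).powersetCard k,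
        ∑ v ∈ Finset.Icc 1 ⌊(X : ℝ) ^ (1 - cc a)⌋₊,
          om X η v (prodS ∅ ^ 2 * (prodS s * prodS t') : ℕ) *
            ((rhoQ z r (prodS s * prodS t') v : ℝ) * JJ z X ρ ∅ (prodS s * prodS t') v) := by
    unfold SA MT
    rw [mul_sum]
    refine sum_congr rfl fun s _ => ?_
    rw [mul_sum]
    refine sum_congr rfl fun t _ => ?_
    rw [mul_sum]
    refine sum_congr rfl fun v _ => ?_
    simp only [he]
    ring
  rw [hMT]
  refine (mul_le_mul_of_nonneg_left key (by positivity)).trans ?_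
  have hCN : (CA a X k) ^ 2 = N := rfl
  rw [hCN]
  -- numerics
  have hLpos : 0 < L := by linarith
  set Dd := (T1 - T0) / L with hDd
  have hD1 : Dd ≤ 4 := by
    rw [hDd, div_le_iff₀ hLpos]
    exact hTd
  have hD0 : 0 ≤ Dd := div_nonneg (by linarith) hLpos.le
  have hexp : Real.exp μ ≤ 1 + 2 * μ := by
    have := Real.abs_exp_sub_one_le (x := μ) (by rw [abs_of_pos hμ0]; exact hμ1)
    rw [abs_of_pos hμ0] at this
    have := (abs_le.mp this).2
    linarith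
  have hEE : E * E ≤ 1 + 2 * μ := by
    have h5 : E * E = Real.exp μ := by
      rw [hE, ← Real.exp_add]
      ring_nf
    rw [h5]
    exact hexp
  have hinner : (1 + μ) * E * (2 * PiR z r * (P0 * ε2 + E / 8) +
      ε1 * (E / 8) * (1 + lf * Dd)) ≤ (1 + ε) * PiR z r / 4 :=
    numer μ ε E (PiR z r) P0 ε2 ε1 lf Dd hμ0 hμ1 hμ2 hE0 hEE hPi hP0pos hlf0 hD0 hD1 hε hε2 hε1
  have hTD : T1 - T0 = Dd * L := by rw [hDd]; field_simp
  have hfinal : 1 / Qz z * ((1 + μ) * E *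
      (GG X ρ * (2 * PiR z r * (P0 * (ε2 * H) + I) + ε1 * I) * N +
        lf * (GG X ρ * (ε1 * I * (N / L))) * (T1 - T0))) =
      GG X ρ * H * N / Qz z * ((1 + μ) * E * (2 * PiR z r * (P0 * ε2 + E / 8) +
      ε1 * (E / 8) * (1 + lf * Dd))) := by
    rw [hTD, hI]
    exact alg1 _ _ _ _ _ _ _ _ _ _ _ _ _ hLpos.ne'
  rw [hfinal]
  refine (mul_le_mul_of_nonneg_left hinner (by positivity)).trans (le_of_eq ?_)
  rw [hH]
  exact alg2 η (√(X : ℝ)) (Qz z) (PiR z r) ε (GG X ρ) N _ rfl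

end Pool.Agent.Run7.h212.CG
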