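import Pool.Agent.Run7.h212.CG.Transfer

/-!
# Project CG2, pieces TMb and TMc (helper212)
-/

set_option autoImplicit false

namespace Pool.Agent.Run7.h212.CG

open Finset Filter MeasureTheory Pool.Agent.H38R2.CG Pool.Agent.H38R2.CG2
open scoped Classical

theorem big (hNB : P2_NB) (a : ℝ) (ha : 2 < a) (M : ℕ) : ∃ X0 : ℕ, ∀ X ≥ X0,
    3 ≤ X ∧ (M : ℝ) ≤ Real.log X ∧ M ≤ kA a X ∧ M ≤ yA a X ∧ 1 ≤ Real.log X := by
  obtain ⟨X1, h1⟩ := hNB a ha 1 one_pos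
  have h2 : ∀ᶠ X : ℕ in atTop, ((M : ℝ) + 1) ^ 2 ≤ Real.log X :=
    (Real.tendsto_log_atTop.comp tendsto_natCast_atTop_atTop).eventually_ge_atTop _
  obtain ⟨X2, h2⟩ := eventually_atTop.mp h2
  refine ⟨max (max X1 X2) 3, fun X hX => ?_⟩
  have hX1 : X1 ≤ X := le_trans (le_trans (le_max_left _ _) (le_max_left _ _)) hX
  have hX2 : X2 ≤ X := le_trans (le_trans (le_max_right _ _) (le_max_left _ _)) hX
  have hX3 : 3 ≤ X := le_trans (le_max_right _ _) hX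
  obtain ⟨-, -, -, -, h5, -, h7, -⟩ := h1 X hX1
  have h3 := h2 X hX2
  have hM : (0 : ℝ) ≤ M := Nat.cast_nonneg _
  have h4 : (M : ℝ) + 1 ≤ √(Real.log X) := Real.le_sqrt_of_sq_le h3
  have h6 : (M : ℝ) + 1 ≤ kA a X := h4.trans h5
  have h6' : M + 1 ≤ kA a X := by exact_mod_cast h6
  refine ⟨hX3, by nlinarith, by omega, ?_, by nlinarith⟩
  have h8 := PA_card_le a X
  have h9 : kA a X ≤ 4 * kA a X ^ 2 := by nlinarith
  omega

theorem Qz_pos (z : ℕ) : (0 : ℝ) < Qz z := by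
  unfold Qz
  have : 0 < 16 * ∏ l ∈ (Finset.Icc 3 z).filter Nat.Prime, l ^ 2 := by
    refine Nat.mul_pos (by norm_num) (prod_pos fun l hl => ?_)
    exact pow_pos (mem_filter.mp hl).2.pos 2
  exact_mod_cast this

theorem fejI_pos (hFJ : P2_FJ) : 0 < fejI := hFJ.1

/-- the sum of `MT` in terms of the sum without `rhoQ` -/
theorem MT_le (hTB2 : P_TB2) (hTB3c : P_TB3c) (hJP : P2_JP) {a : ℝ} {z r X k C0 : ℕ} {δ η : ℝ}
    {ρ : ℕ → ℝ} {c : Finset ℕ} (hX : 1 ≤ X) (hη : 0 < η) (hη1 : η ≤ 1)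
    (hρ : SWt z X (PA a X) δ C0 ρ) (hz : z ≤ yA a X) (h2 : 2 ≤ yA a X) (hc : c ⊆ PA a X) :
    ∑ s ∈ (PA a X).powersetCard k, ∑ t ∈ (PA a X).powersetCard k, MT a z r X η ρ c s t ≤
    8 * 2 ^ z * ∑ s ∈ (PA a X).powersetCard k, ∑ t ∈ (PA a X).powersetCard k,
      ∑ v ∈ Finset.Icc 1 ⌊(X : ℝ) ^ (1 - cc a)⌋₊,
        om X η v (prodS c ^ 2 * (prodS s * prodS t) : ℕ) * JJ z X ρ c (prodS s * prodS t) v := by
  rw [mul_sum]
  refine sum_le_sum fun s hs => ?_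
  rw [mul_sum]
  refine sum_le_sum fun t ht => ?_
  unfold MT
  rw [mul_sum]
  refine sum_le_sum fun v hv => ?_
  rw [mem_powersetCard] at hs ht
  have hQ := Qz_pos z
  have hn0 : 0 < prodS c ^ 2 * (prodS s * prodS t) := by
    have := prodS_pos' hc
    have := prodS_pos' hs.1
    have := prodS_pos' ht.1
    positivity
  have h3 := hTB3c z r (prodS c ^ 2 * (prodS s * prodS t)) v (mem_Icc.mp hv).1
    (n_coprime hz h2 hc hs.1 ht.1)
  have h4 : (rhoQ z r (prodS c ^ 2 * (prodS s * prodS t)) v : ℝ) ≤ Qz z * 8 * 2 ^ z := by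
    exact_mod_cast h3
  have h5 := hJP z X (PA a X) δ C0 ρ c (prodS s * prodS t) v hρ
  have h6 : 0 ≤ om X η v (prodS c ^ 2 * (prodS s * prodS t) : ℕ) :=
    (hTB2 X η hX hη hη1 _ (by exact_mod_cast hn0)).2.1 _
  calc om X η v (prodS c ^ 2 * (prodS s * prodS t) : ℕ) / Qz z *
      ((rhoQ z r (prodS c ^ 2 * (prodS s * prodS t)) v : ℝ) * JJ z X ρ c (prodS s * prodS t) v)
      ≤ om X η v (prodS c ^ 2 * (prodS s * prodS t) : ℕ) / Qz z *
      ((Qz z * 8 * 2 ^ z) * JJ z X ρ c (prodS s * prodS t) v) :=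
        mul_le_mul_of_nonneg_left (mul_le_mul_of_nonneg_right h4 h5) (div_nonneg h6 hQ.le)
    _ = _ := by field_simp

theorem exp_quarter : Real.exp (1 / 2 / 2) * Real.exp (1 / 2 / 2) ≤ 2 := by
  rw [← Real.exp_add]
  have h : Real.exp (1 / 2 / 2 + 1 / 2 / 2) ^ 2 = Real.exp 1 := by
    rw [← Real.exp_nat_mul]
    norm_num
  have h1 := Real.exp_one_lt_d9
  nlinarith [Real.exp_pos (1 / 2 / 2 + 1 / 2 / 2)]

theorem cc_pos {a : ℝ} (ha : 2 < a) : 0 < cc a := by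
  unfold cc
  exact div_pos (by linarith) (by linarith)

theorem cc_lt {a : ℝ} (ha : 2 < a) : cc a < 1 / 32 := by
  unfold cc
  rw [div_lt_iff₀ (by linarith)]
  linarith

/-- general bound, used for TMb and TMc -/
theorem general (hOM : P2_OM) (hOMC : P2_OMC) (hTB2 : P_TB2) (hFJ : P2_FJ) (hTB3c : P_TB3c)
    (hJP : P2_JP) (a : ℝ) (ha : 2 < a) : ∃ l : ℝ, 0 < l ∧
    ∀ (z r X C0 : ℕ) (η : ℝ) (ρ : ℕ → ℝ) (c : Finset ℕ) (A1 B1 : ℝ), 3 ≤ X → 0 < η → η ≤ 1 →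
    1 ≤ Real.log X → SWt z X (PA a X) (cc a) C0 ρ → z ≤ yA a X → 2 ≤ yA a X → c ⊆ PA a X →
    c.card ≤ kA a X → (∀ c s : Finset ℕ, c ⊆ PA a X →
      s ⊆ PA a X → c.card + s.card = kA a X → (X : ℝ) ^ (th a) ≤ (prodS c : ℝ) * prodS s ∧
      (prodS c : ℝ) * prodS s ≤ (X : ℝ) ^ (th a + cc a)) → 0 ≤ A1 → 0 ≤ B1 →
    (∀ (F : ℝ → ℝ) (I t : ℝ), AntitoneOn F (Set.Ici 0) → (∀ x, 0 ≤ F x) →
      (∀ V : ℝ, 0 ≤ V → ∫ x in (0 : ℝ)..V, F x ≤ I) →
      ∑ v ∈ Finset.Icc 1 ⌊(X : ℝ) ^ (1 - cc a)⌋₊,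
        UJ a z X (kA a X - c.card) ρ c F l t v ≤
      3 ^ c.card * GG X ρ * I * (A1 * SF a X (kA a X - c.card) c l t +
        B1 * (fejI / (4 * l)) / Real.log X * (CA a X (kA a X - c.card)) ^ 2)) →
    ∑ s ∈ (PA a X).powersetCard (kA a X - c.card),
      ∑ t ∈ (PA a X).powersetCard (kA a X - c.card), MT a z r X η ρ c s t ≤
      4 * 2 ^ z * 3 ^ c.card * GG X ρ * η * √(X : ℝ) * (CA a X (kA a X - c.card)) ^ 2 *
        (A1 + B1) := by
  obtain ⟨l, hl, hOM'⟩ := hOM 1 (1 / 2) one_pos (by norm_num) (by norm_num)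
  refine ⟨l, hl, ?_⟩
  intro z r X C0 η ρ c A1 B1 hX hη hη1 hL hρ hz h2 hc hck hSZ hA1 hB1 hin
  have hX1 : 1 ≤ X := by omega
  have hfI := fejI_pos hFJ
  have hG := GG_nonneg hρ
  have hE : 0 < Real.exp (1 / 2 / 2) := Real.exp_pos _
  have hCC0 := cc_pos ha
  have hCC1 := cc_lt ha
  refine (MT_le hTB2 hTB3c hJP hX1 hη hη1 hρ hz h2 hc).trans ?_
  set k := kA a X - c.card with hk
  set L := Real.log X with hLdef
  set I := Real.exp (1 / 2 / 2) * (η * √(X : ℝ) / 8) with hI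
  have hI0 : 0 ≤ I := by positivity
  set T0 := 2 * th a * L - 1 / 2 with hT0
  set T1 := (2 * th a + 2 * cc a) * L + 1 / 2 with hT1
  have hTT : T0 ≤ T1 := by
    rw [hT0, hT1]
    nlinarith
  have hTd : T1 - T0 ≤ 2 * L := by
    rw [hT0, hT1]
    nlinarith
  have key := transfer hFJ hOMC (κ := 1) (η' := 1 / 2) one_pos hl hOM' a X k
    ⌊(X : ℝ) ^ (1 - cc a)⌋₊ c η T0 T1 (3 ^ c.card * GG X ρ * I * A1)
    (3 ^ c.card * GG X ρ * I * (B1 * (fejI / (4 * l)) / L * (CA a X k) ^ 2)) hX1 hη hη1 hTT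
    (fun v s t => JJ z X ρ c (prodS s * prodS t) v)
    (fun v s t => hJP z X (PA a X) (cc a) C0 ρ c (prodS s * prodS t) v hρ) (by positivity)
    (fun s hs t ht => by
      obtain ⟨h3, h4, h5⟩ := log_n hX1 hSZ hc hck hs ht
      refine ⟨h3, ?_, ?_⟩
      · rw [hT0]; linarith
      · rw [hT1]; linarith)
    (fun t _ _ => by
      obtain ⟨f1, f2, f3⟩ := F_facts hTB2 X η (1 / 2) t hX1 hη hη1
      have h3 := hin (fun v : ℝ => om X η (v * Real.exp (-(1 / 2 / 2))) (Real.exp t)) I t f1 f2 f3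
      unfold UJ at h3
      refine h3.trans (le_of_eq ?_)
      ring)
  have key2 : 8 * 2 ^ z * ∑ s ∈ (PA a X).powersetCard k, ∑ t ∈ (PA a X).powersetCard k,
      ∑ v ∈ Finset.Icc 1 ⌊(X : ℝ) ^ (1 - cc a)⌋₊,
        om X η v (prodS c ^ 2 * (prodS s * prodS t) : ℕ) * JJ z X ρ c (prodS s * prodS t) v ≤
      8 * 2 ^ z * ((1 + 1) * Real.exp (1 / 2 / 2) *
        (3 ^ c.card * GG X ρ * I * A1 * (CA a X k) ^ 2 + l / fejI *
        (3 ^ c.card * GG X ρ * I * (B1 * (fejI / (4 * l)) / L * (CA a X k) ^ 2)) *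
          (T1 - T0))) := mul_le_mul_of_nonneg_left key (by positivity)
  refine key2.trans ?_
  set U := 3 ^ c.card * GG X ρ * η * √(X : ℝ) * (CA a X k) ^ 2 with hU
  have hU0 : 0 ≤ U := by positivity
  have hLpos : 0 < L := by linarith
  have e1 : 8 * 2 ^ z * ((1 + 1) * Real.exp (1 / 2 / 2) *
        (3 ^ c.card * GG X ρ * I * A1 * (CA a X k) ^ 2 + l / fejI *
        (3 ^ c.card * GG X ρ * I * (B1 * (fejI / (4 * l)) / L * (CA a X k) ^ 2)) *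
          (T1 - T0))) =
      2 ^ z * 2 * (Real.exp (1 / 2 / 2) * Real.exp (1 / 2 / 2)) * U *
        (A1 + B1 * ((T1 - T0) / (4 * L))) := by
    rw [hU, hI]
    field_simp
    ring
  rw [e1]
  have e2 : (T1 - T0) / (4 * L) ≤ 1 := by
    rw [div_le_one (by positivity)]
    linarith
  have e3 : 0 ≤ (T1 - T0) / (4 * L) := div_nonneg (by linarith) (by positivity)
  have e4 : A1 + B1 * ((T1 - T0) / (4 * L)) ≤ A1 + B1 := by nlinarith
  have e5 := exp_quarter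
  calc 2 ^ z * 2 * (Real.exp (1 / 2 / 2) * Real.exp (1 / 2 / 2)) * U *
        (A1 + B1 * ((T1 - T0) / (4 * L)))
      ≤ 2 ^ z * 2 * 2 * U * (A1 + B1) := by
        refine mul_le_mul ?_ e4 (add_nonneg hA1 (mul_nonneg hB1 e3)) (by positivity)
        refine mul_le_mul_of_nonneg_right ?_ hU0
        exact mul_le_mul_of_nonneg_left e5 (by positivity)
    _ = _ := by rw [hU]; ring

theorem T2_TMb (hTC : P2_TC) (hOM : P2_OM) (hOMC : P2_OMC) (hTB2 : P_TB2) (hFJ : P2_FJ)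
    (hSZ : P2_SZ) (hNB : P2_NB) (hTB3c : P_TB3c) (hJP : P2_JP) : P2_TMb := by
  intro a ha z r hz2 hr η hη hη1 C0 i0 hC0
  obtain ⟨l, hl, hgen⟩ := general hOM hOMC hTB2 hFJ hTB3c hJP a ha
  have hfI := fejI_pos hFJ
  set ε := min 1 (fejI / (4 * l)) with hε
  have hε0 : 0 < ε := lt_min one_pos (by positivity)
  obtain ⟨X1, h1⟩ := hTC a ha z C0 i0 hC0 l ε hl hε0
  obtain ⟨X2, h2⟩ := hSZ a ha
  obtain ⟨X3, h3⟩ := big hNB a ha (max (max i0 z) 2)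
  refine ⟨max (max X1 X2) X3, fun X hX ρ hρ c hc hci => ?_⟩
  have hX1 : X1 ≤ X := le_trans (le_trans (le_max_left _ _) (le_max_left _ _)) hX
  have hX2 : X2 ≤ X := le_trans (le_trans (le_max_right _ _) (le_max_left _ _)) hX
  have hX3 : X3 ≤ X := le_trans (le_max_right _ _) hX
  obtain ⟨b1, b2, b3, b4, b5⟩ := h3 X hX3
  have hG := GG_nonneg hρ
  have m1 : i0 ≤ max (max i0 z) 2 := le_trans (le_max_left _ _) (le_max_left _ _)
  have m2 : z ≤ max (max i0 z) 2 := le_trans (le_max_right _ _) (le_max_left _ _)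
  have m3 : 2 ≤ max (max i0 z) 2 := le_max_right _ _
  have hX0 : (0 : ℝ) < X := by exact_mod_cast (by omega : 0 < X)
  have hrpow : (0 : ℝ) ≤ (X : ℝ) ^ (1 - cc a) := (Real.rpow_pos_of_pos hX0 _).le
  have hSF : ∀ t, 0 ≤ SF a X (kA a X - c.card) c l t := fun t =>
    sum_nonneg fun s _ => sum_nonneg fun t' _ => hFJ.2.1 _
  have := hgen z r X C0 η ρ c 2 1 b1 hη hη1 b5 hρ (m2.trans b4) (m3.trans b4) hc
    (hci.trans (m1.trans b3)) (h2 X hX2) (by norm_num) (by norm_num)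
    (fun F I t f1 f2 f3 => by
      have h4 := h1 X hX1 ρ hρ c 1 ⌊(X : ℝ) ^ (1 - cc a)⌋₊ F I t hc hci le_rfl
        (fun p hp hp1 => absurd (Nat.dvd_one.mp hp1) hp.one_lt.ne') f1 f2 f3
        (Nat.floor_le hrpow)
      have h5 : (Finset.Icc 1 ⌊(X : ℝ) ^ (1 - cc a)⌋₊).filter (fun v => 1 ∣ v) =
          Finset.Icc 1 ⌊(X : ℝ) ^ (1 - cc a)⌋₊ := by
        apply filter_true_of_mem
        intro v _
        exact one_dvd v
      rw [h5] at h4
      refine h4.trans ?_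
      have hI0 : 0 ≤ I := by simpa using f3 0 le_rfl
      have h6 : (I / ((1 : ℕ) : ℝ)) = I := by simp
      rw [h6]
      refine mul_le_mul_of_nonneg_left ?_ (by positivity)
      have h7 : ε ≤ 1 := min_le_left _ _
      have h8 : ε ≤ fejI / (4 * l) := min_le_right _ _
      have h9 : (1 + ε) * SF a X (kA a X - c.card) c l t ≤
          2 * SF a X (kA a X - c.card) c l t :=
        mul_le_mul_of_nonneg_right (by linarith) (hSF t)
      have h10 : ε / Real.log X * (CA a X (kA a X - c.card)) ^ 2 ≤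
          1 * (fejI / (4 * l)) / Real.log X * (CA a X (kA a X - c.card)) ^ 2 := by
        refine mul_le_mul_of_nonneg_right ?_ (by positivity)
        rw [one_mul]
        exact div_le_div_of_nonneg_right h8 (by linarith)
      linarith)
  refine this.trans ?_
  have h11 : 0 ≤ 2 ^ z * 3 ^ c.card * GG X ρ * η * √(X : ℝ) *
      (CA a X (kA a X - c.card)) ^ 2 := by positivity
  have e1 : 4 * 2 ^ z * 3 ^ c.card * GG X ρ * η * √(X : ℝ) * (CA a X (kA a X - c.card)) ^ 2 *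
        (2 + 1) = 12 * (2 ^ z * 3 ^ c.card * GG X ρ * η * √(X : ℝ) *
      (CA a X (kA a X - c.card)) ^ 2) := by ring
  have e2 : (2 : ℝ) ^ (z + 5) * 3 ^ c.card * GG X ρ * η * √(X : ℝ) *
      (CA a X (kA a X - c.card)) ^ 2 = 32 * (2 ^ z * 3 ^ c.card * GG X ρ * η * √(X : ℝ) *
      (CA a X (kA a X - c.card)) ^ 2) := by rw [pow_add]; ring
  rw [e1, e2]
  linarith

theorem T2_TMc (hTC0 : P2_TC0) (hOM : P2_OM) (hOMC : P2_OMC) (hTB2 : P_TB2) (hFJ : P2_FJ)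
    (hSZ : P2_SZ) (hNB : P2_NB) (hTB3c : P_TB3c) (hJP : P2_JP) : P2_TMc := by
  intro a ha z r hz2 hr η hη hη1 C0 hC0
  obtain ⟨l, hl, hgen⟩ := general hOM hOMC hTB2 hFJ hTB3c hJP a ha
  have hfI := fejI_pos hFJ
  obtain ⟨X2, h2⟩ := hSZ a ha
  obtain ⟨X3, h3⟩ := big hNB a ha (max z 2)
  refine ⟨max X2 X3, fun X hX ρ hρ c hc hci => ?_⟩
  have hX2 : X2 ≤ X := le_trans (le_max_left _ _) hX
  have hX3 : X3 ≤ X := le_trans (le_max_right _ _) hX
  obtain ⟨b1, b2, b3, b4, b5⟩ := h3 X hX3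
  have hG := GG_nonneg hρ
  have m2 : z ≤ max z 2 := le_max_left _ _
  have m3 : 2 ≤ max z 2 := le_max_right _ _
  have hX0 : (0 : ℝ) < X := by exact_mod_cast (by omega : 0 < X)
  have hrpow : (0 : ℝ) ≤ (X : ℝ) ^ (1 - cc a) := (Real.rpow_pos_of_pos hX0 _).le
  have hnd : ∀ p ∈ PA a X, ¬ p ∣ Qz z := fun p hp =>
    PA_not_dvd (m2.trans b4) (m3.trans b4) hp
  have := hgen z r X C0 η ρ c ((1 + Real.log X) ^ (2 * C0)) 0 b1 hη hη1 b5 hρ (m2.trans b4)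
    (m3.trans b4) hc hci (h2 X hX2) (by positivity) le_rfl
    (fun F I t f1 f2 f3 => by
      have h4 := hTC0 a ha z X b1 C0 hC0 ρ hρ hnd c (kA a X - c.card) 1
        ⌊(X : ℝ) ^ (1 - cc a)⌋₊ F I l t hc le_rfl
        (fun p hp hp1 => absurd (Nat.dvd_one.mp hp1) hp.one_lt.ne') f1 f2 f3 hl
        (Nat.floor_le hrpow)
      have h5 : (Finset.Icc 1 ⌊(X : ℝ) ^ (1 - cc a)⌋₊).filter (fun v => 1 ∣ v) =
          Finset.Icc 1 ⌊(X : ℝ) ^ (1 - cc a)⌋₊ := by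
        apply filter_true_of_mem
        intro v _
        exact one_dvd v
      rw [h5] at h4
      refine h4.trans (le_of_eq ?_)
      have h6 : (I / ((1 : ℕ) : ℝ)) = I := by simp
      rw [h6]
      ring)
  refine this.trans ?_
  have h11 : 0 ≤ 2 ^ z * 3 ^ c.card * (1 + Real.log X) ^ (2 * C0) * GG X ρ * η * √(X : ℝ) *
      (CA a X (kA a X - c.card)) ^ 2 := by positivity
  have e1 : 4 * 2 ^ z * 3 ^ c.card * GG X ρ * η * √(X : ℝ) * (CA a X (kA a X - c.card)) ^ 2 *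
        ((1 + Real.log X) ^ (2 * C0) + 0) = 4 * (2 ^ z * 3 ^ c.card *
        (1 + Real.log X) ^ (2 * C0) * GG X ρ * η * √(X : ℝ) *
      (CA a X (kA a X - c.card)) ^ 2) := by ring
  have e2 : (2 : ℝ) ^ (z + 5) * 3 ^ c.card * (1 + Real.log X) ^ (2 * C0) * GG X ρ * η *
      √(X : ℝ) * (CA a X (kA a X - c.card)) ^ 2 = 32 * (2 ^ z * 3 ^ c.card *
        (1 + Real.log X) ^ (2 * C0) * GG X ρ * η * √(X : ℝ) *
      (CA a X (kA a X - c.card)) ^ 2) := by rw [pow_add]; ring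
  rw [e1, e2]
  linarith

end Pool.Agent.Run7.h212.CG
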