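import Pool.Agent.H38R2.CG2.Stubs

/-!
# Project CG2: replacing `om` by its majorant (common part of TMa and TMbc) (helper212)
-/

set_option autoImplicit false

namespace Pool.Agent.Run7.h212.CG

open Finset Filter MeasureTheory Pool.Agent.H38R2.CG Pool.Agent.H38R2.CG2
open scoped Classical

theorem transfer (hFJ : P2_FJ) (hOMC : P2_OMC) {κ η' l : ℝ} (hκ : 0 < κ) (hl : 0 < l)
    (hOM : ∀ (X : ℕ) (η v x T0 T1 : ℝ), 1 ≤ X → 0 < η → η ≤ 1 → 0 ≤ v → T0 + η' ≤ x →
      x + η' ≤ T1 → om X η v (Real.exp x) ≤ (1 + κ) * Real.exp (η' / 2) * (∫ t in T0..T1,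
        om X η (v * Real.exp (-(η' / 2))) (Real.exp t) * (l / fejI * fej (l * (x - t)))))
    (a : ℝ) (X k V : ℕ) (c : Finset ℕ) (η T0 T1 A B : ℝ) (hX : 1 ≤ X) (hη : 0 < η)
    (hη1 : η ≤ 1) (hT : T0 ≤ T1)
    (W : ℕ → Finset ℕ → Finset ℕ → ℝ) (hW : ∀ v s t, 0 ≤ W v s t) (hA : 0 ≤ A)
    (hn : ∀ s ∈ (PA a X).powersetCard k, ∀ t ∈ (PA a X).powersetCard k,
      0 < prodS c ^ 2 * (prodS s * prodS t) ∧
      T0 + η' ≤ Real.log (prodS c ^ 2 * (prodS s * prodS t) : ℕ) ∧
      Real.log (prodS c ^ 2 * (prodS s * prodS t) : ℕ) + η' ≤ T1)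
    (hin : ∀ t : ℝ, T0 ≤ t → t ≤ T1 →
      ∑ v ∈ Finset.Icc 1 V, om X η (v * Real.exp (-(η' / 2))) (Real.exp t) *
        ∑ s ∈ (PA a X).powersetCard k, ∑ t' ∈ (PA a X).powersetCard k,
          W v s t' * fej (l * (Real.log (prodS c ^ 2 * (prodS s * prodS t') : ℕ) - t)) ≤
      A * SF a X k c l t + B) :
    ∑ s ∈ (PA a X).powersetCard k, ∑ t' ∈ (PA a X).powersetCard k, ∑ v ∈ Finset.Icc 1 V,
      om X η v (prodS c ^ 2 * (prodS s * prodS t') : ℕ) * W v s t' ≤
    (1 + κ) * Real.exp (η' / 2) * (A * (CA a X k) ^ 2 + l / fejI * B * (T1 - T0)) := by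
  obtain ⟨hfI, hf0, hfc, hf4, -⟩ := hFJ
  set P := (PA a X).powersetCard k with hP
  set x : Finset ℕ → Finset ℕ → ℝ := fun s t =>
    Real.log (prodS c ^ 2 * (prodS s * prodS t) : ℕ) with hx
  have hE : 0 < Real.exp (η' / 2) := Real.exp_pos _
  have hlf : 0 < l / fejI := div_pos hl hfI
  set G : Finset ℕ → Finset ℕ → ℕ → ℝ → ℝ := fun s t' v t =>
    om X η (v * Real.exp (-(η' / 2))) (Real.exp t) * (l / fejI * fej (l * (x s t' - t))) *
      W v s t' with hG
  have hfc' : ∀ y : ℝ, Continuous (fun t => fej (l * (y - t))) := fun y =>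
    hfc.comp (by fun_prop)
  have hGc : ∀ s t' v, Continuous (G s t' v) := by
    intro s t' v
    have h1 : Continuous (fun t : ℝ => om X η (v * Real.exp (-(η' / 2))) (Real.exp t)) :=
      hOMC X η _ hX hη hη1 (by positivity)
    have h2 := hfc' (x s t')
    simp only [hG]
    exact (h1.mul (continuous_const.mul h2)).mul continuous_const
  have hGi : ∀ s t' v, IntervalIntegrable (G s t' v) volume T0 T1 := fun s t' v =>
    (hGc s t' v).intervalIntegrable _ _
  -- step 1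
  have h1 : ∑ s ∈ P, ∑ t' ∈ P, ∑ v ∈ Finset.Icc 1 V,
      om X η v (prodS c ^ 2 * (prodS s * prodS t') : ℕ) * W v s t' ≤
      ∑ s ∈ P, ∑ t' ∈ P, ∑ v ∈ Finset.Icc 1 V,
        (1 + κ) * Real.exp (η' / 2) * ∫ t in T0..T1, G s t' v t := by
    refine sum_le_sum fun s hs => sum_le_sum fun t' ht' => sum_le_sum fun v _ => ?_
    obtain ⟨hn0, hn1, hn2⟩ := hn s hs t' ht'
    have h2 : ((prodS c ^ 2 * (prodS s * prodS t') : ℕ) : ℝ) = Real.exp (x s t') := by
      rw [hx, Real.exp_log]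
      exact_mod_cast hn0
    have h3 := hOM X η v (x s t') T0 T1 hX hη hη1 (Nat.cast_nonneg _) hn1 hn2
    rw [h2]
    refine (mul_le_mul_of_nonneg_right h3 (hW v s t')).trans (le_of_eq ?_)
    simp only [hG]
    rw [intervalIntegral.integral_mul_const]
    ring
  refine h1.trans ?_
  have h2 : ∑ s ∈ P, ∑ t' ∈ P, ∑ v ∈ Finset.Icc 1 V,
        (1 + κ) * Real.exp (η' / 2) * ∫ t in T0..T1, G s t' v t =
      (1 + κ) * Real.exp (η' / 2) * ∫ t in T0..T1,
        ∑ s ∈ P, ∑ t' ∈ P, ∑ v ∈ Finset.Icc 1 V, G s t' v t := by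
    rw [intervalIntegral.integral_finsetSum fun s _ =>
      (continuous_finsetSum _ fun t' _ => continuous_finsetSum _ fun v _ =>
        hGc s t' v).intervalIntegrable _ _]
    rw [mul_sum]
    refine sum_congr rfl fun s _ => ?_
    rw [intervalIntegral.integral_finsetSum fun t' _ =>
      (continuous_finsetSum _ fun v _ => hGc s t' v).intervalIntegrable _ _]
    rw [mul_sum]
    refine sum_congr rfl fun t' _ => ?_
    rw [intervalIntegral.integral_finsetSum fun v _ => hGi s t' v]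
    rw [mul_sum]
  rw [h2]
  refine mul_le_mul_of_nonneg_left ?_ (by positivity)
  have hSFc : Continuous (fun t => SF a X k c l t) := by
    unfold SF
    exact continuous_finsetSum _ fun s _ => continuous_finsetSum _ fun t' _ =>
      hfc' (x s t')
  have h3 : ∫ t in T0..T1, ∑ s ∈ P, ∑ t' ∈ P, ∑ v ∈ Finset.Icc 1 V, G s t' v t ≤
      ∫ t in T0..T1, (l / fejI) * (A * SF a X k c l t + B) := by
    refine intervalIntegral.integral_mono_on hT ?_ ?_ fun t ht => ?_
    · exact (continuous_finsetSum _ fun s _ => continuous_finsetSum _ fun t' _ =>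
        continuous_finsetSum _ fun v _ => hGc s t' v).intervalIntegrable _ _
    · exact (continuous_const.mul ((continuous_const.mul hSFc).add
        continuous_const)).intervalIntegrable _ _
    · have h4 : ∑ s ∈ P, ∑ t' ∈ P, ∑ v ∈ Finset.Icc 1 V, G s t' v t =
          (l / fejI) * ∑ v ∈ Finset.Icc 1 V,
            om X η (v * Real.exp (-(η' / 2))) (Real.exp t) *
            ∑ s ∈ P, ∑ t' ∈ P, W v s t' * fej (l * (x s t' - t)) := by
        rw [mul_sum]
        simp only [mul_sum]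
        rw [sum_comm]
        conv_rhs => rw [sum_comm]
        refine (sum_comm).trans ?_
        refine sum_congr rfl fun s _ => ?_
        rw [sum_comm]
        refine sum_congr rfl fun v _ => sum_congr rfl fun t' _ => ?_
        simp only [hG]
        ring
      rw [h4]
      exact mul_le_mul_of_nonneg_left (hin t ht.1 ht.2) hlf.le
  refine h3.trans ?_
  have h5 : ∫ t in T0..T1, (l / fejI) * (A * SF a X k c l t + B) =
      A / fejI * (∫ t in T0..T1, l * SF a X k c l t) + l / fejI * B * (T1 - T0) := by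
    have h6 : ∀ t, (l / fejI) * (A * SF a X k c l t + B) =
        A / fejI * (l * SF a X k c l t) + l / fejI * B := by
      intro t; ring
    simp only [h6]
    have i1 : IntervalIntegrable (fun t => A / fejI * (l * SF a X k c l t)) volume T0 T1 :=
      (continuous_const.mul (continuous_const.mul hSFc)).intervalIntegrable _ _
    have i2 : IntervalIntegrable (fun _ : ℝ => l / fejI * B) volume T0 T1 :=
      continuous_const.intervalIntegrable _ _
    rw [intervalIntegral.integral_add i1 i2, intervalIntegral.integral_const_mul,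
      intervalIntegral.integral_const, smul_eq_mul]
    ring
  rw [h5]
  have h7 : ∫ t in T0..T1, l * SF a X k c l t ≤ (CA a X k) ^ 2 * fejI := by
    have h8 : ∀ t, l * SF a X k c l t = ∑ s ∈ P, ∑ t' ∈ P, l * fej (l * (x s t' - t)) := by
      intro t
      unfold SF
      simp only [mul_sum]
      rfl
    simp only [h8]
    have hc2 : ∀ s t', Continuous (fun t => l * fej (l * (x s t' - t))) := fun s t' =>
      continuous_const.mul (hfc' (x s t'))
    have i3 : ∀ s ∈ P, IntervalIntegrable (fun t => ∑ t' ∈ P, l * fej (l * (x s t' - t)))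
        volume T0 T1 := fun s _ =>
      (continuous_finsetSum _ fun t' _ => hc2 s t').intervalIntegrable _ _
    rw [intervalIntegral.integral_finsetSum i3]
    have h9 : ∀ s ∈ P, ∫ t in T0..T1, ∑ t' ∈ P, l * fej (l * (x s t' - t)) ≤
        (P.card : ℝ) * fejI := by
      intro s _
      have i4 : ∀ t' ∈ P, IntervalIntegrable (fun t => l * fej (l * (x s t' - t)))
          volume T0 T1 := fun t' _ => (hc2 s t').intervalIntegrable _ _
      rw [intervalIntegral.integral_finsetSum i4]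
      refine (sum_le_sum fun t' _ => hf4 l (x s t') T0 T1 hl hT).trans ?_
      rw [sum_const, nsmul_eq_mul]
    refine (sum_le_sum h9).trans ?_
    rw [sum_const, nsmul_eq_mul]
    have h10 : (P.card : ℝ) = CA a X k := by
      rw [hP, card_powersetCard]
      rfl
    rw [h10]
    exact le_of_eq (by ring)
  have h11 : A / fejI * (∫ t in T0..T1, l * SF a X k c l t) ≤ A * (CA a X k) ^ 2 := by
    calc A / fejI * (∫ t in T0..T1, l * SF a X k c l t)
        ≤ A / fejI * ((CA a X k) ^ 2 * fejI) :=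
          mul_le_mul_of_nonneg_left h7 (div_nonneg hA hfI.le)
      _ = _ := by field_simp
  linarith

/-- properties of the function of `v` -/
theorem F_facts (hTB2 : P_TB2) (X : ℕ) (η η' t : ℝ) (hX : 1 ≤ X) (hη : 0 < η) (hη1 : η ≤ 1) :
    AntitoneOn (fun v : ℝ => om X η (v * Real.exp (-(η' / 2))) (Real.exp t)) (Set.Ici 0) ∧
    (∀ v : ℝ, 0 ≤ om X η (v * Real.exp (-(η' / 2))) (Real.exp t)) ∧
    ∀ V : ℝ, 0 ≤ V → ∫ v in (0 : ℝ)..V, om X η (v * Real.exp (-(η' / 2))) (Real.exp t) ≤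
      Real.exp (η' / 2) * (η * √(X : ℝ) / 8) := by
  obtain ⟨h1, h2, -, h4, -⟩ := hTB2 X η hX hη hη1 (Real.exp t) (Real.exp_pos t)
  have hE : 0 < Real.exp (-(η' / 2)) := Real.exp_pos _
  refine ⟨fun u hu v hv huv => ?_, fun v => h2 _, fun V hV => ?_⟩
  · exact h1 (mul_nonneg hu hE.le) (mul_nonneg hv hE.le) (mul_le_mul_of_nonneg_right huv hE.le)
  · have h5 := intervalIntegral.integral_comp_mul_right
      (fun v => om X η v (Real.exp t)) hE.ne' (a := 0) (b := V)
    rw [h5, zero_mul, smul_eq_mul, ← Real.exp_neg, neg_neg]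
    exact mul_le_mul_of_nonneg_left (h4 _ (mul_nonneg hV hE.le)) (Real.exp_pos _).le

theorem GG_nonneg {z X : ℕ} {P : Finset ℕ} {δ : ℝ} {C0 : ℕ} {ρ : ℕ → ℝ}
    (h : SWt z X P δ C0 ρ) : 0 ≤ GG X ρ :=
  le_trans (inv_nonneg.mpr (pow_nonneg (Real.log_natCast_nonneg X) _)) h.low

theorem PA_prime {a : ℝ} {X p : ℕ} (hp : p ∈ PA a X) : p.Prime := by
  unfold PA PP at hp
  exact (mem_filter.mp hp).2

theorem PA_gt {a : ℝ} {X p : ℕ} (hp : p ∈ PA a X) : yA a X < p := by
  unfold PA PP at hp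
  exact (mem_Ioc.mp (mem_filter.mp hp).1).1

theorem PA_card_le (a : ℝ) (X : ℕ) : (PA a X).card ≤ yA a X := by
  unfold PA PP
  refine (card_filter_le _ _).trans ?_
  rw [Nat.card_Ioc]
  omega

theorem PA_not_dvd {a : ℝ} {X z : ℕ} (hz : z ≤ yA a X) (h2 : 2 ≤ yA a X) {p : ℕ}
    (hp : p ∈ PA a X) : ¬ p ∣ Qz z := by
  intro h
  have hpp := PA_prime hp
  have hgt := PA_gt hp
  unfold Qz at h
  rcases (Nat.Prime.dvd_mul hpp).mp h with h | h
  · have h16 : p ∣ 2 ^ 4 := by simpa using h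
    have := (Nat.prime_dvd_prime_iff_eq hpp Nat.prime_two).mp (hpp.dvd_of_dvd_pow h16)
    omega
  · rw [Prime.dvd_finsetProd_iff hpp.prime] at h
    obtain ⟨q, hq, hpq⟩ := h
    rw [mem_filter, mem_Icc] at hq
    have := (Nat.prime_dvd_prime_iff_eq hpp hq.2).mp (hpp.dvd_of_dvd_pow hpq)
    omega

theorem prodS_coprime {Q : ℕ} {s : Finset ℕ} (h : ∀ p ∈ s, p.Prime ∧ ¬ p ∣ Q) :
    (prodS s).Coprime Q := by
  unfold prodS
  rw [Nat.coprime_prod_left_iff]
  exact fun p hp => (Nat.Prime.coprime_iff_not_dvd (h p hp).1).mpr (h p hp).2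

theorem n_coprime {a : ℝ} {X z : ℕ} (hz : z ≤ yA a X) (h2 : 2 ≤ yA a X) {c s t : Finset ℕ}
    (hc : c ⊆ PA a X) (hs : s ⊆ PA a X) (ht : t ⊆ PA a X) :
    (prodS c ^ 2 * (prodS s * prodS t)).Coprime (Qz z) := by
  have h1 : ∀ {u : Finset ℕ}, u ⊆ PA a X → (prodS u).Coprime (Qz z) := fun {u} hu =>
    prodS_coprime fun p hp => ⟨PA_prime (hu hp), PA_not_dvd hz h2 (hu hp)⟩
  exact Nat.Coprime.mul_left (Nat.Coprime.pow_left 2 (h1 hc))
    (Nat.Coprime.mul_left (h1 hs) (h1 ht))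

theorem prodS_pos' {a : ℝ} {X : ℕ} {s : Finset ℕ} (hs : s ⊆ PA a X) : 0 < prodS s :=
  prod_pos fun p hp => (PA_prime (hs hp)).pos

/-- size of the logarithm of the product -/
theorem log_n {a : ℝ} {X : ℕ} (hX : 1 ≤ X) (hSZ : ∀ c s : Finset ℕ, c ⊆ PA a X →
    s ⊆ PA a X → c.card + s.card = kA a X → (X : ℝ) ^ (th a) ≤ (prodS c : ℝ) * prodS s ∧
    (prodS c : ℝ) * prodS s ≤ (X : ℝ) ^ (th a + cc a))
    {c s t : Finset ℕ} (hc : c ⊆ PA a X) (hck : c.card ≤ kA a X)
    (hs : s ∈ (PA a X).powersetCard (kA a X - c.card))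
    (ht : t ∈ (PA a X).powersetCard (kA a X - c.card)) :
    0 < prodS c ^ 2 * (prodS s * prodS t) ∧
    2 * th a * Real.log X ≤ Real.log (prodS c ^ 2 * (prodS s * prodS t) : ℕ) ∧
    Real.log (prodS c ^ 2 * (prodS s * prodS t) : ℕ) ≤ (2 * th a + 2 * cc a) * Real.log X := by
  rw [mem_powersetCard] at hs ht
  have hX0 : (0 : ℝ) < X := by exact_mod_cast hX
  have hc0 : (0 : ℝ) < prodS c := by exact_mod_cast prodS_pos' hc
  have hs0 : (0 : ℝ) < prodS s := by exact_mod_cast prodS_pos' hs.1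
  have ht0 : (0 : ℝ) < prodS t := by exact_mod_cast prodS_pos' ht.1
  obtain ⟨h1, h2⟩ := hSZ c s hc hs.1 (by omega)
  obtain ⟨h3, h4⟩ := hSZ c t hc ht.1 (by omega)
  have h5 : Real.log (prodS c ^ 2 * (prodS s * prodS t) : ℕ) =
      Real.log ((prodS c : ℝ) * prodS s) + Real.log ((prodS c : ℝ) * prodS t) := by
    rw [← Real.log_mul (by positivity) (by positivity)]
    congr 1
    push_cast
    ring
  have hl1 := Real.log_le_log (Real.rpow_pos_of_pos hX0 _) h1
  have hl2 := Real.log_le_log (mul_pos hc0 hs0) h2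
  have hl3 := Real.log_le_log (Real.rpow_pos_of_pos hX0 _) h3
  have hl4 := Real.log_le_log (mul_pos hc0 ht0) h4
  rw [Real.log_rpow hX0] at hl1 hl2 hl3 hl4
  refine ⟨?_, ?_, ?_⟩
  · have := prodS_pos' hc
    have := prodS_pos' hs.1
    have := prodS_pos' ht.1
    positivity
  · rw [h5]; nlinarith
  · rw [h5]; nlinarith

end Pool.Agent.Run7.h212.CG
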